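import Pool.Agent.Helper9.TwoLen.Basic

/-!
# Moved points, and the action of a group on the orbits of a normal subgroup
-/

set_option autoImplicit false

open scoped commutatorElement

namespace Pool.Agent.Helper9.TwoLen

section Moved

variable {I : Type*} [Finite I]

/-- Number of points moved by a permutation. -/
noncomputable def mv (π : Equiv.Perm I) : ℕ := {i : I | π i ≠ i}.ncard

theorem mv_mul (π ρ : Equiv.Perm I) : mv (π * ρ) ≤ mv π + mv ρ := by
  unfold mv
  refine (Set.ncard_le_ncard ?_ (Set.toFinite _)).trans (Set.ncard_union_le _ _)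
  intro i hi
  by_contra hcon
  simp only [Set.mem_union, Set.mem_ofPred_eq, not_or, not_not] at hcon
  apply hi
  rw [Equiv.Perm.mul_apply, hcon.2, hcon.1]

omit [Finite I] in
theorem mv_inv (π : Equiv.Perm I) : mv π⁻¹ = mv π := by
  unfold mv
  congr 1
  ext i
  simp only [Set.mem_ofPred_eq]
  rw [not_iff_not, Equiv.Perm.inv_eq_iff_eq]
  exact ⟨fun h => h.symm, fun h => h.symm⟩

omit [Finite I] in
theorem mv_conj (ρ π : Equiv.Perm I) : mv (ρ * π * ρ⁻¹) = mv π := by
  have h0 : {i : I | (ρ * π * ρ⁻¹) i ≠ i} = ρ '' {i : I | π i ≠ i} := by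
    ext i
    constructor
    · intro h
      refine ⟨ρ⁻¹ i, fun h2 => h ?_, by simp⟩
      rw [Equiv.Perm.mul_apply, Equiv.Perm.mul_apply, h2]
      simp
    · rintro ⟨j, hj, rfl⟩ h
      apply hj
      simp only [Equiv.Perm.coe_mul, Function.comp_apply, Equiv.Perm.coe_inv, Equiv.symm_apply_apply] at h
      exact ρ.injective h
  unfold mv
  rw [h0, Set.ncard_image_of_injective _ ρ.injective]

theorem mv_commutator {X : Type*} [Group X] (φ : X →* Equiv.Perm I) (β σ : X) {k : ℕ}
    (h : mv (φ σ) ≤ k) : mv (φ ⁅β, σ⁆) ≤ 2 * k := by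
  have h1 : φ ⁅β, σ⁆ = (φ β * φ σ * (φ β)⁻¹) * (φ σ)⁻¹ := by
    rw [commutatorElement_def, map_mul, map_mul, map_mul, map_inv, map_inv]
  rw [h1]
  have h2 := mv_mul (φ β * φ σ * (φ β)⁻¹) (φ σ)⁻¹
  rw [mv_conj, mv_inv] at h2
  omega

theorem mv_commutator' {X : Type*} [Group X] (φ : X →* Equiv.Perm I) (c γ : X) {k : ℕ}
    (h : mv (φ c) ≤ k) : mv (φ ⁅c, γ⁆) ≤ 2 * k := by
  have h1 : φ ⁅c, γ⁆ = φ c * (φ γ * (φ c)⁻¹ * (φ γ)⁻¹) := by
    rw [commutatorElement_def, map_mul, map_mul, map_mul, map_inv, map_inv]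
    group
  rw [h1]
  have h2 := mv_mul (φ c) (φ γ * (φ c)⁻¹ * (φ γ)⁻¹)
  rw [mv_conj, mv_inv] at h2
  omega

end Moved

section Orb

variable {X I : Type*} [Group X] (φ : X →* Equiv.Perm I) (B : Subgroup X)

/-- The `B`-orbit of a point. -/
def orb (i : I) : Set I := {j | ∃ b ∈ B, φ b i = j}

theorem mem_orb_self (i : I) : i ∈ orb φ B i := ⟨1, B.one_mem, by simp⟩

theorem orb_eq_of_mem {i j : I} (h : j ∈ orb φ B i) : orb φ B j = orb φ B i := by
  obtain ⟨b, hb, rfl⟩ := h
  ext l
  constructor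
  · rintro ⟨c, hc, rfl⟩
    exact ⟨c * b, B.mul_mem hc hb, by simp⟩
  · rintro ⟨c, hc, rfl⟩
    exact ⟨c * b⁻¹, B.mul_mem hc (B.inv_mem hb), by simp⟩

theorem image_orb (hB : B.Normal) (x : X) (i : I) : φ x '' orb φ B i = orb φ B (φ x i) := by
  ext l
  constructor
  · rintro ⟨j, ⟨b, hb, rfl⟩, rfl⟩
    exact ⟨x * b * x⁻¹, hB.conj_mem b hb x, by simp⟩
  · rintro ⟨b, hb, rfl⟩
    refine ⟨φ (x⁻¹ * b * x) i, ⟨x⁻¹ * b * x, ?_, rfl⟩, by simp⟩
    have := hB.conj_mem b hb x⁻¹
    rwa [inv_inv] at this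

/-- The set of `B`-orbits. -/
def Orbs : Type _ := {o : Set I // ∃ i, o = orb φ B i}

instance [Finite I] : Finite (Orbs φ B) := by
  unfold Orbs
  infer_instance

/-- The action of the group on the set of orbits of a normal subgroup. -/
@[reducible] def orbAct (hB : B.Normal) : MulAction X (Orbs φ B) where
  smul x o := ⟨φ x '' o.1, by
    obtain ⟨i, hi⟩ := o.2
    exact ⟨φ x i, by rw [hi, image_orb φ B hB]⟩⟩
  one_smul o := by
    apply Subtype.ext
    show φ 1 '' o.1 = o.1
    simp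
  mul_smul x y o := by
    apply Subtype.ext
    show φ (x * y) '' o.1 = φ x '' (φ y '' o.1)
    rw [map_mul, Equiv.Perm.coe_mul, Set.image_comp]

/-- The permutation representation on the set of orbits. -/
def orbHom (hB : B.Normal) : X →* Equiv.Perm (Orbs φ B) :=
  letI := orbAct φ B hB
  MulAction.toPermHom X (Orbs φ B)

theorem orbHom_apply (hB : B.Normal) (x : X) (o : Orbs φ B) :
    (orbHom φ B hB x o).1 = φ x '' o.1 := rfl

theorem mv_orbHom [Finite I] (hB : B.Normal) (h2 : ∀ i, 2 ≤ (orb φ B i).ncard) (x : X) :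
    2 * mv (orbHom φ B hB x) ≤ mv (φ x) := by
  classical
  have : Fintype I := Fintype.ofFinite I
  have : Fintype (Orbs φ B) := Fintype.ofFinite _
  let f : I → Orbs φ B := fun i => ⟨orb φ B i, i, rfl⟩
  have hmv : ∀ o : Orbs φ B, orbHom φ B hB x o ≠ o → ∀ i ∈ o.1, φ x i ≠ i := by
    intro o ho i hi h
    apply ho
    apply Subtype.ext
    rw [orbHom_apply]
    obtain ⟨j, hj⟩ := o.2
    have h3 : orb φ B i = o.1 := by
      rw [hj] at hi ⊢
      exact orb_eq_of_mem φ B hi
    rw [← h3, image_orb φ B hB, h]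
  set s : Finset I := Finset.univ.filter (fun i => φ x i ≠ i) with hs
  set t : Finset (Orbs φ B) := Finset.univ.filter (fun o => orbHom φ B hB x o ≠ o) with ht
  have h3 : mv (φ x) = s.card := by
    unfold mv
    rw [← Set.ncard_coe_finset]
    congr 1
    ext i
    simp [hs]
  have h4 : mv (orbHom φ B hB x) = t.card := by
    unfold mv
    rw [← Set.ncard_coe_finset]
    congr 1
    ext o
    simp [ht]
  rw [h3, h4]
  have h5 : ∀ o ∈ t, 2 ≤ (s.filter (fun i => f i = o)).card := by
    intro o ho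
    have ho' : orbHom φ B hB x o ≠ o := by simpa [ht] using ho
    obtain ⟨i, hi⟩ := o.2
    have h6 : (orb φ B i).ncard ≤ (s.filter (fun i => f i = o)).card := by
      rw [← Set.ncard_coe_finset]
      apply Set.ncard_le_ncard _ (Set.toFinite _)
      intro j hj
      simp only [Finset.coe_filter, Set.mem_ofPred_eq, hs, Finset.mem_filter, Finset.mem_univ,
        true_and]
      refine ⟨hmv o ho' j (by rw [hi]; exact hj), ?_⟩
      apply Subtype.ext
      show orb φ B j = o.1
      rw [hi]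
      exact orb_eq_of_mem φ B hj
    exact (h2 i).trans h6
  calc 2 * t.card = ∑ _o ∈ t, 2 := by rw [Finset.sum_const, smul_eq_mul, mul_comm]
    _ ≤ ∑ o ∈ t, (s.filter (fun i => f i = o)).card := Finset.sum_le_sum h5
    _ = (t.biUnion (fun o => s.filter (fun i => f i = o))).card := by
        rw [Finset.card_biUnion]
        intro o _ o' _ hne
        rw [Function.onFun, Finset.disjoint_left]
        intro i hi hi'
        rw [Finset.mem_filter] at hi hi'
        exact hne (hi.2.symm.trans hi'.2)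
    _ ≤ s.card := by
        apply Finset.card_le_card
        intro i hi
        rw [Finset.mem_biUnion] at hi
        obtain ⟨o, _, ho⟩ := hi
        exact (Finset.mem_filter.1 ho).1

end Orb

end Pool.Agent.Helper9.TwoLen
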