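import Pool.Agent.Helper9.TwoLen.LemG
import Pool.Agent.Helper9.TwoLen.Orbits

/-!
# MP_ecbc8a_al, packet 1: Lemma 0
-/

set_option autoImplicit false

open scoped commutatorElement

namespace Pool.Agent.Helper9.TwoLen

open Pool.Agent.Helper12.TwoLen

/-- The faithful case of Lemma 0, given the induction hypothesis for `k / 2`. -/
theorem lem0_faithful (k D : ℕ)
    (hD : ∀ (X I : Type) [Group X] [Finite X] [Group.IsSolvable X] [Finite I]
      (φ : X →* Equiv.Perm I) (S : Set X), Subgroup.closure S = ⊤ →
      (∀ i j : I, ∃ x : X, φ x i = j) →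
      (∀ σ ∈ S, {i : I | φ σ i ≠ i}.ncard ≤ k / 2) → ∀ x ∈ derivedSeries X D, φ x = 1)
    (X I : Type) [Group X] [Finite X] [Group.IsSolvable X] [Finite I]
    (φ : X →* Equiv.Perm I) (hφ : Function.Injective φ) (S : Set X)
    (hS : Subgroup.closure S = ⊤) (htr : ∀ i j : I, ∃ x : X, φ x i = j)
    (hmv : ∀ σ ∈ S, mv (φ σ) ≤ k) :
    derivedSeries X (max 2 (max (4 * k).factorial (D + (2 * k).factorial))) = ⊥ := by
  by_cases hd2 : derivedSeries X 2 = ⊥
  · exact le_bot_iff.1 ((derivedSeries_antitone X (le_max_left _ _)).trans hd2.le)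
  obtain ⟨d, h3, h2⟩ := exists_derived_length X hd2
  rcases lemG X d S hS h3 h2 with ⟨B, hBn, hBab, β, hβ, σ, hσ, hα⟩ | ⟨γ, γ', σ, hσ, hζ, hζc⟩
  · -- a noncentral abelian normal subgroup
    have hαB : ⁅β, σ⁆ ∈ B := by
      have h5 : ⁅β, σ⁆ = β * (σ * β⁻¹ * σ⁻¹) := by
        simp only [commutatorElement_def]; group
      rw [h5]
      exact B.mul_mem hβ (hBn.conj_mem _ (B.inv_mem hβ) σ)
    have hαmv : mv (φ ⁅β, σ⁆) ≤ 2 * k := mv_commutator φ β σ (hmv σ hσ)
    obtain ⟨i, hi⟩ : ∃ i, φ ⁅β, σ⁆ i ≠ i := by
      by_contra hcon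
      push Not at hcon
      apply hα
      apply hφ
      rw [map_one]
      ext i
      rw [hcon i, Equiv.Perm.one_apply]
    have horb1 : orb φ B i ⊆ {j | φ ⁅β, σ⁆ j ≠ j} := by
      rintro j ⟨b, hb, rfl⟩ h
      apply hi
      have h6 : φ ⁅β, σ⁆ (φ b i) = φ b (φ ⁅β, σ⁆ i) := by
        rw [← Equiv.Perm.mul_apply, ← map_mul, hBab _ hαB b hb, map_mul, Equiv.Perm.mul_apply]
      rw [h6] at h
      exact (φ b).injective h
    have hcard1 : (orb φ B i).ncard ≤ 2 * k :=
      (Set.ncard_le_ncard horb1 (Set.toFinite _)).trans hαmv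
    have hcard2 : 2 ≤ (orb φ B i).ncard := by
      have h7 : ({i, φ ⁅β, σ⁆ i} : Set I) ⊆ orb φ B i := by
        rintro j (rfl | rfl)
        · exact mem_orb_self φ B _
        · exact ⟨_, hαB, rfl⟩
      have h8 := Set.ncard_le_ncard h7 (Set.toFinite _)
      rwa [Set.ncard_pair (Ne.symm hi)] at h8
    have hcard : ∀ j, (orb φ B j).ncard = (orb φ B i).ncard := by
      intro j
      obtain ⟨x, rfl⟩ := htr i j
      rw [← image_orb φ B hBn, Set.ncard_image_of_injective _ (φ x).injective]
    -- the action on the orbits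
    have hJ : ∀ x ∈ derivedSeries X D, orbHom φ B hBn x = 1 := by
      apply hD X (Orbs φ B) (orbHom φ B hBn) S hS
      · rintro ⟨o, i1, rfl⟩ ⟨o', i2, rfl⟩
        obtain ⟨x, rfl⟩ := htr i1 i2
        refine ⟨x, Subtype.ext ?_⟩
        rw [orbHom_apply]
        exact image_orb φ B hBn x i1
      · intro τ hτ
        have h9 := mv_orbHom φ B hBn (fun j => by rw [hcard j]; exact hcard2) τ
        have h10 := hmv τ hτ
        have h11 : mv (orbHom φ B hBn τ) ≤ k / 2 := by omega
        exact h11
    -- the action on one orbit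
    have hmain : ∀ x ∈ derivedSeries X (D + (2 * k).factorial), x = 1 := by
      intro x hx
      rw [derivedSeries_add] at hx
      obtain ⟨y, hy, rfl⟩ := hx
      apply hφ
      rw [map_one]
      ext j
      have hpres : ∀ z : derivedSeries X D, ∀ l, l ∈ orb φ B j ↔ φ z.1 l ∈ orb φ B j := by
        intro z l
        have h12 : φ z.1 '' orb φ B j = orb φ B j := by
          have h13 := congrArg (fun f : Equiv.Perm (Orbs φ B) =>
            (f ⟨orb φ B j, j, rfl⟩).1) (hJ z.1 z.2)
          simpa [orbHom_apply] using h13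
        constructor
        · intro hl
          rw [← h12]
          exact ⟨l, hl, rfl⟩
        · intro hl
          rw [← h12] at hl
          obtain ⟨l', hl', h14⟩ := hl
          rwa [← (φ z.1).injective h14]
      let f : derivedSeries X D →* Equiv.Perm (orb φ B j) :=
        { toFun := fun z => (φ z.1).subtypePerm (fun l => (hpres z l).symm)
          map_one' := by
            ext l
            simp
          map_mul' := by
            intro z w
            ext l
            simp }
      have h15 : Nat.card (orb φ B j) ≤ 2 * k := by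
        rw [Nat.card_coe_set_eq, hcard j]
        exact hcard1
      have h16 := derivedSeries_perm f h15 hy
      have h17 := congrArg (fun g : Equiv.Perm (orb φ B j) =>
        (g ⟨j, mem_orb_self φ B j⟩).1) h16
      simpa [f] using h17
    have h18 : derivedSeries X (D + (2 * k).factorial) = ⊥ := by
      rw [eq_bot_iff]
      intro x hx
      rw [Subgroup.mem_bot]
      exact hmain x hx
    exact le_bot_iff.1 ((derivedSeries_antitone X
      ((le_max_right _ _).trans (le_max_right _ _))).trans h18.le)
  · -- a central element moving few points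
    have h4 : mv (φ ⁅⁅γ, σ⁆, γ'⁆) ≤ 4 * k := by
      have h5 := mv_commutator' φ ⁅γ, σ⁆ γ' (mv_commutator φ γ σ (hmv σ hσ))
      omega
    obtain ⟨i, hi⟩ : ∃ i, φ ⁅⁅γ, σ⁆, γ'⁆ i ≠ i := by
      by_contra hcon
      push Not at hcon
      apply hζ
      apply hφ
      rw [map_one]
      ext i
      rw [hcon i, Equiv.Perm.one_apply]
    have h6 : {j | φ ⁅⁅γ, σ⁆, γ'⁆ j ≠ j} = Set.univ := by
      rw [Set.eq_univ_iff_forall]
      intro j
      obtain ⟨x, rfl⟩ := htr i j
      intro h
      apply hi
      have h7 : φ ⁅⁅γ, σ⁆, γ'⁆ (φ x i) = φ x (φ ⁅⁅γ, σ⁆, γ'⁆ i) := by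
        rw [← Equiv.Perm.mul_apply, ← map_mul, ← Subgroup.mem_center_iff.1 hζc x, map_mul,
          Equiv.Perm.mul_apply]
      rw [h7] at h
      exact (φ x).injective h
    have h8 : Nat.card I ≤ 4 * k := by
      unfold mv at h4
      rw [h6, Set.ncard_univ] at h4
      exact h4
    have h9 : derivedSeries X (4 * k).factorial = ⊥ := by
      rw [eq_bot_iff]
      intro x hx
      rw [Subgroup.mem_bot]
      apply hφ
      rw [map_one]
      exact derivedSeries_perm φ h8 hx
    exact le_bot_iff.1 ((derivedSeries_antitone X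
      ((le_max_left _ _).trans (le_max_right _ _))).trans h9.le)

theorem lem0 : Lem0 := by
  intro k
  induction k using Nat.strong_induction_on with
  | _ k ih =>
    rcases Nat.eq_zero_or_pos k with rfl | hk
    · refine ⟨0, ?_⟩
      intro X I _ _ _ _ φ S hS _ hmv x _
      have hx : x ∈ Subgroup.closure S := by rw [hS]; trivial
      have hle : Subgroup.closure S ≤ φ.ker := by
        rw [Subgroup.closure_le]
        intro σ hσ
        rw [SetLike.mem_coe, MonoidHom.mem_ker]
        have h1 := Nat.le_zero.1 (hmv σ hσ)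
        rw [Set.ncard_eq_zero (Set.toFinite _)] at h1
        ext i
        by_contra h2
        have h3 : i ∈ {i : I | φ σ i ≠ i} := h2
        rw [h1] at h3
        exact h3
      exact hle hx
    · obtain ⟨D, hD⟩ := ih (k / 2) (Nat.div_lt_self hk (by norm_num))
      refine ⟨max 2 (max (4 * k).factorial (D + (2 * k).factorial)), ?_⟩
      intro X I _ _ _ _ φ S hS htr hmv x hx
      have hsolv : Group.IsSolvable φ.range :=
        Group.isSolvable_of_surjective (f := φ.rangeRestrict) φ.rangeRestrict_surjective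
      have h1 := lem0_faithful k D hD φ.range I φ.range.subtype φ.range.subtype_injective
        (φ.rangeRestrict '' S)
        (by
          rw [← MonoidHom.map_closure, hS]
          exact Subgroup.map_top_of_surjective _ φ.rangeRestrict_surjective)
        (by
          intro i j
          obtain ⟨y, hy⟩ := htr i j
          exact ⟨φ.rangeRestrict y, hy⟩)
        (by
          rintro _ ⟨σ, hσ, rfl⟩
          exact hmv σ hσ)
      have h2 : φ.rangeRestrict x ∈ derivedSeries φ.range
          (max 2 (max (4 * k).factorial (D + (2 * k).factorial))) :=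
        map_derivedSeries_le_derivedSeries φ.rangeRestrict _ (Subgroup.mem_map_of_mem _ hx)
      rw [h1, Subgroup.mem_bot] at h2
      exact congrArg Subtype.val h2

end Pool.Agent.Helper9.TwoLen
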