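import Mathlib

/-!
# Auxiliary facts on derived series of finite solvable groups
-/

set_option autoImplicit false

open scoped commutatorElement

namespace Pool.Agent.Helper9.TwoLen

/-- The derived series of a finite solvable group reaches `1` after at most `|G|` steps. -/
theorem derivedSeries_card_aux (G : Type*) [Group G] [Finite G] [Group.IsSolvable G] (n : ℕ) :
    derivedSeries G n = ⊥ ∨ Nat.card (derivedSeries G n) + n ≤ Nat.card G := by
  induction n with
  | zero => right; simp
  | succ n ih =>
    by_cases h0 : derivedSeries G n = ⊥
    · left
      rw [derivedSeries_succ, h0]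
      simp
    · rcases ih with ih | ih
      · exact absurd ih h0
      · right
        have hlt : derivedSeries G (n + 1) < derivedSeries G n := by
          rw [derivedSeries_succ]
          exact Group.IsSolvable.commutator_lt_of_ne_bot h0
        have hc : Nat.card (derivedSeries G (n + 1)) < Nat.card (derivedSeries G n) :=
          Set.ncard_lt_ncard (s := (derivedSeries G (n + 1) : Set G))
            (t := (derivedSeries G n : Set G)) hlt (Set.toFinite _)
        omega

theorem derivedSeries_eq_bot_of_card_le (G : Type*) [Group G] [Finite G] [Group.IsSolvable G]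
    {n : ℕ} (h : Nat.card G ≤ n) : derivedSeries G n = ⊥ := by
  rcases derivedSeries_card_aux G n with h1 | h1
  · exact h1
  · exfalso
    have : 0 < Nat.card (derivedSeries G n) := Nat.card_pos
    omega

theorem derivedSeries_add (G : Type*) [Group G] (a b : ℕ) :
    derivedSeries G (a + b) = (derivedSeries (derivedSeries G a) b).map
      (derivedSeries G a).subtype := by
  induction b with
  | zero => simp [← MonoidHom.range_eq_map]
  | succ b ih =>
    rw [← add_assoc, derivedSeries_succ, ih, derivedSeries_succ, Subgroup.map_commutator]

/-- A solvable group acting on a set with at most `m` points: the `m!`-th derived subgroup acts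
trivially. -/
theorem derivedSeries_perm {G : Type*} [Group G] [Group.IsSolvable G] {o : Type*} [Finite o]
    (f : G →* Equiv.Perm o) {m : ℕ} (hm : Nat.card o ≤ m) {x : G}
    (hx : x ∈ derivedSeries G m.factorial) : f x = 1 := by
  have hfin : Finite f.range := inferInstance
  have hsolv : Group.IsSolvable f.range :=
    Group.isSolvable_of_surjective (f := f.rangeRestrict) f.rangeRestrict_surjective
  have hcard : Nat.card f.range ≤ m.factorial := by
    calc Nat.card f.range ≤ Nat.card (Equiv.Perm o) :=
          Nat.card_le_card_of_injective _ (Subgroup.subtype_injective _)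
      _ = (Nat.card o).factorial := Nat.card_perm
      _ ≤ m.factorial := Nat.factorial_le hm
  have h1 := derivedSeries_eq_bot_of_card_le f.range hcard
  have h2 : f.rangeRestrict x ∈ derivedSeries f.range m.factorial :=
    map_derivedSeries_le_derivedSeries f.rangeRestrict _ (Subgroup.mem_map_of_mem _ hx)
  rw [h1, Subgroup.mem_bot] at h2
  exact congrArg Subtype.val h2

/-- Distance of the derived length from two. -/
theorem exists_derived_length (G : Type*) [Group G] [Group.IsSolvable G]
    (h : derivedSeries G 2 ≠ ⊥) : ∃ d, derivedSeries G (d + 3) = ⊥ ∧
      derivedSeries G (d + 2) ≠ ⊥ := by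
  classical
  have hex : ∃ n, derivedSeries G n = ⊥ := Group.IsSolvable.solvable
  have h1 : 3 ≤ Nat.find hex := by
    by_contra hlt
    have h2 : Nat.find hex ≤ 2 := by omega
    exact h (le_bot_iff.1 ((derivedSeries_antitone G h2).trans (Nat.find_spec hex).le))
  refine ⟨Nat.find hex - 3, ?_, ?_⟩
  · have h2 : Nat.find hex - 3 + 3 = Nat.find hex := by omega
    rw [h2]
    exact Nat.find_spec hex
  · exact Nat.find_min hex (by omega)

end Pool.Agent.Helper9.TwoLen
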