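import Pool.Agent.Helper12.Defs
import Pool.Agent.Helper9.TwoLen.Basic

/-!
# MP_ecbc8a_al, packet 1: Lemma G
-/

set_option autoImplicit false

open scoped commutatorElement

namespace Pool.Agent.Helper9.TwoLen

open Pool.Agent.Helper12.TwoLen

theorem central_of_commute_gens {X : Type*} [Group X] {S : Set X}
    (hS : Subgroup.closure S = ⊤) {x : X} (h : ∀ σ ∈ S, ⁅x, σ⁆ = 1) :
    x ∈ Subgroup.center X := by
  rw [Subgroup.mem_center_iff]
  intro g
  have hg : g ∈ Subgroup.closure S := by rw [hS]; trivial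
  have hle : Subgroup.closure S ≤ Subgroup.centralizer {x} := by
    rw [Subgroup.closure_le]
    intro σ hσ
    rw [SetLike.mem_coe, Subgroup.mem_centralizer_singleton_iff]
    exact (commutatorElement_eq_one_iff_mul_comm.1 (h σ hσ)).symm
  exact Subgroup.mem_centralizer_singleton_iff.1 (hle hg)

theorem commutator_gens_central {X : Type*} [Group X] {S : Set X}
    (hS : Subgroup.closure S = ⊤) {x : X} (h : ∀ σ ∈ S, ⁅x, σ⁆ ∈ Subgroup.center X) (g : X) :
    ⁅x, g⁆ ∈ Subgroup.center X := by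
  have hg : g ∈ Subgroup.closure S := by rw [hS]; trivial
  induction hg using Subgroup.closure_induction with
  | mem σ hσ => exact h σ hσ
  | one => rw [commutatorElement_one_right]; exact Subgroup.one_mem _
  | mul a b _ _ ha hb =>
    have h1 : ⁅x, a * b⁆ = ⁅x, a⁆ * (a * ⁅x, b⁆ * a⁻¹) := by
      simp only [commutatorElement_def]; group
    rw [h1, Subgroup.mem_center_iff.1 hb a]
    have h2 : ⁅x, b⁆ * a * a⁻¹ = ⁅x, b⁆ := by group
    rw [h2]
    exact Subgroup.mul_mem _ ha hb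
  | inv a _ ha =>
    have h1 : ⁅x, a⁻¹⁆ = a⁻¹ * ⁅x, a⁆⁻¹ * a := by
      simp only [commutatorElement_def]; group
    have h3 : ⁅x, a⁆⁻¹ ∈ Subgroup.center X := Subgroup.inv_mem _ ha
    rw [h1, Subgroup.mem_center_iff.1 h3 a⁻¹]
    have h2 : ⁅x, a⁆⁻¹ * a⁻¹ * a = ⁅x, a⁆⁻¹ := by group
    rw [h2]
    exact h3

theorem lemG : LemG := by
  intro X _ d S hS h3 h2
  by_contra hcon
  push Not at hcon
  obtain ⟨hA, hB⟩ := hcon
  have hCn : (derivedSeries X (d + 1)).Normal := derivedSeries_normal X (d + 1)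
  have hZn : (derivedSeries X (d + 2)).Normal := derivedSeries_normal X (d + 2)
  -- abelian normal subgroups are central
  have habc : ∀ B : Subgroup X, B.Normal → (∀ x ∈ B, ∀ y ∈ B, x * y = y * x) →
      B ≤ Subgroup.center X := fun B hB1 hB2 β hβ =>
    central_of_commute_gens hS (hA B hB1 hB2 β hβ)
  -- the last nontrivial derived subgroup is central
  have hZab : ∀ x ∈ derivedSeries X (d + 2), ∀ y ∈ derivedSeries X (d + 2), x * y = y * x := by
    intro x hx y hy
    have h4 : ⁅x, y⁆ ∈ derivedSeries X (d + 3) := Subgroup.commutator_mem_commutator hx hy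
    rw [h3, Subgroup.mem_bot] at h4
    exact commutatorElement_eq_one_iff_mul_comm.1 h4
  have hZc := habc _ hZn hZab
  -- the centre of `C`
  have hcomm : ∀ γ ∈ derivedSeries X (d + 1), ∀ σ ∈ S, ⁅γ, σ⁆ ∈ derivedSeries X (d + 1) := by
    intro γ hγ σ _
    have h5 : ⁅γ, σ⁆ = γ * (σ * γ⁻¹ * σ⁻¹) := by
      simp only [commutatorElement_def]; group
    rw [h5]
    exact Subgroup.mul_mem _ hγ (hCn.conj_mem _ (Subgroup.inv_mem _ hγ) σ)
  have hcz : ∀ γ ∈ derivedSeries X (d + 1), ∀ σ ∈ S, ⁅γ, σ⁆ ∈ Subgroup.center X := by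
    intro γ hγ σ hσ
    have hN : (derivedSeries X (d + 1) ⊓
        Subgroup.centralizer (derivedSeries X (d + 1) : Set X)).Normal := by
      have : (Subgroup.centralizer (derivedSeries X (d + 1) : Set X)).Normal := inferInstance
      infer_instance
    refine habc _ hN ?_ ⟨hcomm γ hγ σ hσ, ?_⟩
    · rintro x ⟨-, hx⟩ y ⟨hy, -⟩
      exact ((Subgroup.mem_centralizer_iff.1 hx) y hy).symm
    · refine Subgroup.mem_centralizer_iff.2 ?_
      intro γ' hγ'
      have h6 : ⁅⁅γ, σ⁆, γ'⁆ ∈ derivedSeries X (d + 2) :=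
        Subgroup.commutator_mem_commutator (hcomm γ hγ σ hσ) hγ'
      have h7 : ⁅⁅γ, σ⁆, γ'⁆ = 1 := by
        by_contra h8
        exact hB γ γ' σ hσ h8 (hZc h6)
      exact (commutatorElement_eq_one_iff_mul_comm.1 h7).symm
  -- three subgroups lemma
  have h9 : ⁅derivedSeries X (d + 1), (⊤ : Subgroup X)⁆ ≤ Subgroup.center X := by
    rw [Subgroup.commutator_le]
    intro γ hγ g _
    exact commutator_gens_central hS (hcz γ hγ) g
  have h10 : ⁅⁅derivedSeries X (d + 1), (⊤ : Subgroup X)⁆, (⊤ : Subgroup X)⁆ = ⊥ := by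
    rw [Subgroup.commutator_eq_bot_iff_le_centralizer]
    intro x hx
    rw [Subgroup.mem_centralizer_iff]
    intro y _
    exact Subgroup.mem_center_iff.1 (h9 hx) y
  have h11 : ⁅⁅(⊤ : Subgroup X), derivedSeries X (d + 1)⁆, (⊤ : Subgroup X)⁆ = ⊥ := by
    rw [Subgroup.commutator_comm (⊤ : Subgroup X)]
    exact h10
  have h12 : ⁅⁅(⊤ : Subgroup X), (⊤ : Subgroup X)⁆, derivedSeries X (d + 1)⁆ = ⊥ :=
    Subgroup.commutator_commutator_eq_bot_of_rotate h11 h10
  apply h2
  rw [derivedSeries_succ, ← le_bot_iff, ← h12]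
  have h13 : derivedSeries X (d + 1) ≤ ⁅(⊤ : Subgroup X), (⊤ : Subgroup X)⁆ :=
    derivedSeries_antitone X (show 1 ≤ d + 1 by omega)
  exact Subgroup.commutator_mono h13 le_rfl

end Pool.Agent.Helper9.TwoLen
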